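import Pool.Agent.H80.JD.Basic

set_option autoImplicit false

namespace Pool.Agent.H23.JD

open Finset Filter Topology Pool.Agent.H80.JD

theorem wl : T_WL := by
  intro n T _ _ f D D' h
  set e : T → ℕ := fun t => (univ.filter (fun c => f c = t ∧ D c ≠ D' c)).card with he
  have h1 : ∀ t b, cls f D' t b ≤ cls f D t b + e t := by
    intro t b
    unfold cls
    rw [he]
    refine le_trans (Finset.card_le_card ?_) (Finset.card_union_le _ _)
    intro c hc
    rw [Finset.mem_union, Finset.mem_filter, Finset.mem_filter]
    rw [Finset.mem_filter] at hc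
    obtain ⟨_, h2, h3⟩ := hc
    by_cases h4 : D c = b
    · exact Or.inl ⟨Finset.mem_univ _, h2, h4⟩
    · refine Or.inr ⟨Finset.mem_univ _, h2, ?_⟩
      rw [h3]; exact h4
  have h2 : ∑ t, e t = hammingDist D D' := by
    unfold hammingDist
    rw [he, Finset.card_eq_sum_card_fiberwise (f := f) (t := univ)
      (fun _ _ => Finset.mem_coe.2 (Finset.mem_univ _))]
    refine Finset.sum_congr rfl (fun t _ => ?_)
    rw [Finset.filter_filter]
    refine congrArg Finset.card (Finset.filter_congr (fun c _ => ?_))
    exact and_comm
  unfold wt
  calc ∑ t, min (cls f D' t true) (cls f D' t false)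
      ≤ ∑ t, (min (cls f D t true) (cls f D t false) + e t) := by
        refine Finset.sum_le_sum (fun t _ => ?_)
        have := h1 t true
        have := h1 t false
        omega
    _ = ∑ t, min (cls f D t true) (cls f D t false) + ∑ t, e t := Finset.sum_add_distrib
    _ ≤ ∑ t, min (cls f D t true) (cls f D t false) + 1 := by
        rw [h2]; omega

end Pool.Agent.H23.JD
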